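import Pool.Agent.POM31.Change
import Pool.Agent.POM31.Lln
import Pool.Agent.POM31.Exam

set_option autoImplicit false

open MeasureTheory ProbabilityTheory Filter Topology

namespace Pool.Agent.Results.MP_3ef57e_nt.GenericSubset

/-- Random sequences with the growth of the primes: the events `A n` (`n` is selected) are
independent, the expected number of selected integers below `x` lies between two constant multiples of
`x / log x`, and every large `n` is left out with probability at least `θ / log (log n)`, where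
`θ > 0`. Almost surely the index set of the frozen statement, formed with the selected integers in
place of the primes, is infinite. -/
theorem result {Ω : Type*} [MeasurableSpace Ω] (μ : Measure Ω) [IsProbabilityMeasure μ]
    (A : ℕ → Set Ω) (hA : ∀ n, MeasurableSet (A n)) (hind : iIndepSet A μ)
    (θ : ℝ) (hθ : 0 < θ)
    (hdel : ∀ᶠ n : ℕ in atTop, μ.real (A n) ≤ 1 - θ / Real.log (Real.log n))
    (c C : ℝ) (hc : 0 < c)
    (hsum : ∀ᶠ x : ℕ in atTop, c * x / Real.log x ≤ ∑ n ∈ Finset.range x, μ.real (A n) ∧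
      ∑ n ∈ Finset.range x, μ.real (A n) ≤ C * x / Real.log x) :
    ∀ᵐ ω ∂μ, Set.Infinite {n : ℕ | 1 ≤ n ∧ ∀ i : ℕ, 1 ≤ i → i ≤ n - 1 →
      Nat.nth (fun m => ω ∈ A m) (n - i - 1) * Nat.nth (fun m => ω ∈ A m) (n + i) <
        Nat.nth (fun m => ω ∈ A m) (n - 1) * Nat.nth (fun m => ω ∈ A m) n} := by
  have hch := POM31.ae_cheb hA hind hc hsum
  have hinf : ∀ᵐ ω ∂μ, (Set.ofPred (fun m => ω ∈ A m)).Infinite := by
    filter_upwards [hch] with ω hω
    exact POM31.infinite_of_cheb hω
  filter_upwards [hinf, POM31.ae_PP hA hind hθ hdel hch hinf] with ω h1 h2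
  exact POM31.infinite_of_PP h1 h2

/-- Random subsets of the primes: every large prime `p` is kept with probability at least `c₀ > 0` and
deleted with probability at least `θ / log (log p)`. This contains the case in which every prime is
kept with a fixed probability `0 < ρ < 1`, and the case in which it is deleted with probability
`1 / log (log p)`. -/
theorem primes {Ω : Type*} [MeasurableSpace Ω] (μ : Measure Ω) [IsProbabilityMeasure μ]
    (A : ℕ → Set Ω) (hA : ∀ n, MeasurableSet (A n)) (hind : iIndepSet A μ)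
    (hnp : ∀ n : ℕ, ¬ n.Prime → A n = ∅)
    (c₀ θ : ℝ) (hc₀ : 0 < c₀) (hθ : 0 < θ)
    (hp : ∀ᶠ p : ℕ in atTop, p.Prime → c₀ ≤ μ.real (A p) ∧
      μ.real (A p) ≤ 1 - θ / Real.log (Real.log p)) :
    ∀ᵐ ω ∂μ, Set.Infinite {n : ℕ | 1 ≤ n ∧ ∀ i : ℕ, 1 ≤ i → i ≤ n - 1 →
      Nat.nth (fun m => ω ∈ A m) (n - i - 1) * Nat.nth (fun m => ω ∈ A m) (n + i) <
        Nat.nth (fun m => ω ∈ A m) (n - 1) * Nat.nth (fun m => ω ∈ A m) n} := by
  have hz : ∀ n : ℕ, ¬ n.Prime → μ.real (A n) = 0 := fun n hn => by rw [hnp n hn]; simp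
  refine result μ A hA hind θ hθ ?_ (c₀ / 4) 6 (by positivity) ?_
  · have hll : Tendsto (fun n : ℕ => Real.log (Real.log (n : ℝ))) atTop atTop :=
      Real.tendsto_log_atTop.comp POM31.log_top'
    filter_upwards [hp, hll.eventually_ge_atTop θ] with n hn hln
    by_cases hpn : n.Prime
    · exact (hn hpn).2
    · rw [hz n hpn]
      have h1 : 0 < Real.log (Real.log (n : ℝ)) := lt_of_lt_of_le hθ hln
      have : θ / Real.log (Real.log (n : ℝ)) ≤ 1 := (div_le_one h1).mpr hln
      linarith
  · exact POM31.sum_primes (fun n => measureReal_nonneg) (fun n => measureReal_le_one) hc₀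
      (hp.mono fun p h hpp => (h hpp).1) (Eventually.of_forall hz)

/-- Cramér type models: the probability of `n` lies between two constant multiples of `1 / log n`. -/
theorem integers {Ω : Type*} [MeasurableSpace Ω] (μ : Measure Ω) [IsProbabilityMeasure μ]
    (A : ℕ → Set Ω) (hA : ∀ n, MeasurableSet (A n)) (hind : iIndepSet A μ)
    (c₁ c₂ : ℝ) (hc₁ : 0 < c₁)
    (hq : ∀ᶠ n : ℕ in atTop, c₁ / Real.log n ≤ μ.real (A n) ∧ μ.real (A n) ≤ c₂ / Real.log n) :
    ∀ᵐ ω ∂μ, Set.Infinite {n : ℕ | 1 ≤ n ∧ ∀ i : ℕ, 1 ≤ i → i ≤ n - 1 →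
      Nat.nth (fun m => ω ∈ A m) (n - i - 1) * Nat.nth (fun m => ω ∈ A m) (n + i) <
        Nat.nth (fun m => ω ∈ A m) (n - 1) * Nat.nth (fun m => ω ∈ A m) n} := by
  refine result μ A hA hind 1 one_pos ?_ (c₁ / 2) (2 * |c₂| + 3) (by positivity)
    (POM31.sum_inv_log (fun n => measureReal_nonneg) (fun n => measureReal_le_one) hc₁ hq)
  have hll : Tendsto (fun n : ℕ => Real.log (Real.log (n : ℝ))) atTop atTop :=
    Real.tendsto_log_atTop.comp POM31.log_top'
  filter_upwards [hq, hll.eventually_ge_atTop 2,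
    POM31.log_top'.eventually_ge_atTop (2 * |c₂| + 1)] with n hn h1 h2
  have h3 : 0 < Real.log (n : ℝ) := by
    have := abs_nonneg c₂
    linarith
  have h4 : c₂ / Real.log n ≤ 1 / 2 := by
    rw [div_le_div_iff₀ h3 (by norm_num)]
    have := le_abs_self c₂
    linarith
  have h5 : 1 / Real.log (Real.log (n : ℝ)) ≤ 1 / 2 :=
    one_div_le_one_div_of_le (by norm_num) h1
  linarith [hn.2]

end Pool.Agent.Results.MP_3ef57e_nt.GenericSubset
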