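import Mathlib

/-!
A weak form of Pomerance's question on products of two consecutive primes.

Put `f(x) = log P(x)`, `P(x)` the prime with index `x` (from `0`), and `A(x) = f(x) + f(x+1)`.
Take a large `N` and let `m` be a point of `[0, 2 μ N]` at which
`G(x) = A(x) - x / N + x ^ 2 / (4 μ ^ 2 N ^ 2)` is maximal. By Chebyshev's bounds `N / M < m < μ N`.
The maximum gives `A(m-i) + A(m+i) < 2 A(m)` and, as `f` is increasing,
`f(m-i) + f(m+1+i) ≤ (A(m-i) + A(m+1+i)) / 2 < A(m)` for `i ≥ C √m`.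
-/

set_option autoImplicit false

open Finset Real

namespace Pool.Agent.Results.MP_3ef57e_nt.SqrtRange

/-- the primes, indexed from `0` -/
noncomputable abbrev P (x : ℕ) : ℕ := Nat.nth Nat.Prime x

lemma P_mono : StrictMono P := Nat.nth_strictMono Nat.infinite_setOfPred_prime

lemma P_prime (x : ℕ) : (P x).Prime := Nat.nth_mem_of_infinite Nat.infinite_setOfPred_prime x

lemma two_le_P (x : ℕ) : 2 ≤ P x := (P_prime x).two_le

lemma lt_P (x : ℕ) : x + 1 ≤ P x := by
  induction x with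
  | zero => exact le_trans (by norm_num) (two_le_P 0)
  | succ x ih =>
    have := P_mono (Nat.lt_succ_self x)
    simp only [Nat.succ_eq_add_one] at this
    omega

lemma pi_P (x : ℕ) : Nat.primeCounting (P x) = x + 1 := by
  rw [Nat.primeCounting, Nat.primeCounting', Nat.count_succ, if_pos (P_prime x)]
  rw [Nat.count_nth_of_infinite Nat.infinite_setOfPred_prime]

/-- the lower bound of Chebyshev for the counting function, as an upper bound for primes -/
lemma P_upper (x : ℕ) : (P x : ℝ) ≤ 20 * (x + 1) * Real.log (P x) := by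
  set n := P x with hn
  have h2 : (2 : ℝ) ≤ n := by exact_mod_cast two_le_P x
  have hlog : 0 < Real.log n := Real.log_pos (by linarith)
  have h := Chebyshev.pi_ge n
  rw [div_le_iff₀ hlog] at h
  have hpi : (Nat.primeCounting n : ℝ) = x + 1 := by
    rw [hn, pi_P]; push_cast; ring
  rw [hpi] at h
  have hl2 : (0.6931 : ℝ) < Real.log 2 := by
    have := Real.log_two_gt_d9
    linarith
  have hl2' : Real.log 2 < 0.6932 := by
    have := Real.log_two_lt_d9
    linarith
  have h3 : Real.log (n + 1) ≤ Real.log 2 + (((n : ℝ) + 1) / 2 - 1) := by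
    have h4 : ((n : ℝ) + 1) = 2 * (((n : ℝ) + 1) / 2) := by ring
    rw [h4, Real.log_mul (by norm_num) (by positivity)]
    have h5 := Real.log_le_sub_one_of_pos (show (0 : ℝ) < ((n : ℝ) + 1) / 2 by positivity)
    rw [← h4]
    linarith
  nlinarith

/-- the upper bound of Chebyshev for the counting function, as a lower bound for primes -/
lemma P_lower (x : ℕ) : (x + 1) * Real.log (P x) ≤ 5 * (P x : ℝ) := by
  set n := P x with hn
  have h2 : (2 : ℝ) ≤ n := by exact_mod_cast two_le_P x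
  have hlog : 0 < Real.log n := Real.log_pos (by linarith)
  have h := Chebyshev.pi_le_log4_mul_div (x := (n : ℝ)) (by linarith)
  rw [Nat.floor_natCast] at h
  have hpi : (Nat.primeCounting n : ℝ) = x + 1 := by
    rw [hn, pi_P]; push_cast; ring
  rw [hpi] at h
  have hs : Real.log (√(n : ℝ)) = Real.log n / 2 := Real.log_sqrt (by linarith)
  rw [hs] at h
  have hl4 : Real.log 4 ≤ 1.4 := by
    have h4 : Real.log 4 = 2 * Real.log 2 := by
      rw [show (4 : ℝ) = 2 ^ 2 by norm_num, Real.log_pow]; norm_num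
    have := Real.log_two_lt_d9
    rw [h4]; linarith
  have hsq : √(n : ℝ) * √(n : ℝ) = n := Real.mul_self_sqrt (by linarith)
  have hs0 : 0 < √(n : ℝ) := Real.sqrt_pos.2 (by linarith)
  have h3 : Real.log n ≤ 2 * √(n : ℝ) := by
    have := Real.log_le_sub_one_of_pos hs0
    rw [hs] at this
    linarith
  calc (x + 1 : ℝ) * Real.log n ≤ (Real.log 4 * n / (Real.log n / 2) + √(n : ℝ)) * Real.log n :=
        mul_le_mul_of_nonneg_right h hlog.le
    _ = 2 * Real.log 4 * n + √(n : ℝ) * Real.log n := by field_simp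
    _ ≤ 2 * 1.4 * n + √(n : ℝ) * (2 * √(n : ℝ)) := by
        apply add_le_add
        · apply mul_le_mul_of_nonneg_right _ (by linarith)
          linarith
        · exact mul_le_mul_of_nonneg_left h3 hs0.le
    _ = 2.8 * n + 2 * (√(n : ℝ) * √(n : ℝ)) := by ring
    _ = 4.8 * n := by rw [hsq]; ring
    _ ≤ 5 * n := by linarith

/-- primes with much smaller index are much smaller -/
lemma P_small (K : ℝ) (hK : 1 ≤ K) : ∃ M : ℕ, 1 ≤ M ∧ ∃ N₀ : ℕ, ∀ N : ℕ, N₀ ≤ N → ∀ x : ℕ,
    x * M ≤ N → K * (P (x + 1) : ℝ) ≤ P N := by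
  obtain ⟨M, hM⟩ := exists_nat_ge (200 * K + 2)
  obtain ⟨N₀, hN₀⟩ := exists_nat_ge (400 * K + 2)
  have hM1 : (2 : ℝ) ≤ M := by linarith
  refine ⟨M, by exact_mod_cast (show (1 : ℝ) ≤ M by linarith), N₀, fun N hN x hx => ?_⟩
  have hNr : 400 * K + 2 ≤ (N : ℝ) := hN₀.trans (by exact_mod_cast hN)
  have hxr : (x : ℝ) * M ≤ N := by exact_mod_cast hx
  have hM2 : 2 ≤ M := by exact_mod_cast hM1
  have hN2 : 2 ≤ N := by
    have : (2 : ℝ) ≤ N := by linarith
    exact_mod_cast this
  have hxN : x + 1 ≤ N := by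
    have h1 : x * 2 ≤ N := le_trans (Nat.mul_le_mul_left x hM2) hx
    omega
  by_contra hcon
  push Not at hcon
  have h1 := P_upper (x + 1)
  have h2 := P_lower N
  have h3 : (P (x + 1) : ℝ) ≤ P N := by exact_mod_cast P_mono.monotone hxN
  have hp : (0 : ℝ) < P (x + 1) := by exact_mod_cast (P_prime (x + 1)).pos
  have hp2 : (2 : ℝ) ≤ P N := by exact_mod_cast two_le_P N
  have hlN : 0 < Real.log (P N) := Real.log_pos (by linarith)
  have hlog : Real.log (P (x + 1)) ≤ Real.log (P N) := Real.log_le_log hp h3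
  push_cast at h1
  have h4 : ((N : ℝ) + 1) * Real.log (P N) < (100 * K * (x + 2)) * Real.log (P N) := by
    calc ((N : ℝ) + 1) * Real.log (P N) ≤ 5 * (P N : ℝ) := h2
      _ < 5 * (K * P (x + 1)) := by linarith
      _ ≤ 5 * (K * (20 * (x + 1 + 1) * Real.log (P (x + 1)))) := by
          have := mul_le_mul_of_nonneg_left h1 (show 0 ≤ K by linarith)
          linarith
      _ ≤ 5 * (K * (20 * (x + 1 + 1) * Real.log (P N))) := by
          have h5 : (0 : ℝ) ≤ 20 * (x + 1 + 1) := by positivity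
          have := mul_le_mul_of_nonneg_left (mul_le_mul_of_nonneg_left hlog h5)
            (show 0 ≤ K by linarith)
          linarith
      _ = (100 * K * (x + 2)) * Real.log (P N) := by ring
  have h5 : (N : ℝ) + 1 < 100 * K * (x + 2) := lt_of_mul_lt_mul_right h4 hlN.le
  have h6 : (x : ℝ) * (200 * K) ≤ N := by
    calc (x : ℝ) * (200 * K) ≤ x * M := by
          apply mul_le_mul_of_nonneg_left _ (by positivity)
          linarith
      _ ≤ N := hxr
  nlinarith

/-- primes with larger index are not much larger -/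
lemma P_big (k : ℕ) (hk : 1 ≤ k) : ∃ N₀ : ℕ, ∀ N : ℕ, N₀ ≤ N →
    (P (k * N + 1) : ℝ) ≤ 800 * k * P N := by
  refine ⟨40 * (k + 2) + 2, fun N hN => ?_⟩
  have hkr : (1 : ℝ) ≤ k := by exact_mod_cast hk
  have hNr : (40 : ℝ) * (k + 2) + 2 ≤ N := by exact_mod_cast hN
  set p : ℝ := (P (k * N + 1) : ℝ) with hp
  have hp2 : 2 ≤ p := by
    rw [hp]; exact_mod_cast two_le_P _
  have h1 := P_upper (k * N + 1)
  push_cast at h1
  rw [← hp] at h1
  have hs0 : 0 < √p := Real.sqrt_pos.2 (by linarith)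
  have hsq : √p * √p = p := Real.mul_self_sqrt (by linarith)
  have hlogp : 0 < Real.log p := Real.log_pos (by linarith)
  have h3 : Real.log p ≤ 2 * √p := by
    have := Real.log_le_sub_one_of_pos hs0
    rw [Real.log_sqrt (by linarith)] at this
    linarith
  have hA : (0 : ℝ) < 20 * (k * N + 1 + 1) := by positivity
  have h4 : √p ≤ 40 * (k * N + 2) := by
    have h5 : √p * √p ≤ (40 * (k * N + 2)) * √p := by
      rw [hsq]
      calc p ≤ 20 * (k * N + 1 + 1) * Real.log p := h1
        _ ≤ 20 * (k * N + 1 + 1) * (2 * √p) := mul_le_mul_of_nonneg_left h3 hA.le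
        _ = (40 * (k * N + 2)) * √p := by ring
    exact le_of_mul_le_mul_right h5 hs0
  have h6 : √p ≤ (N : ℝ) ^ 2 := by
    have : (40 : ℝ) * (k * N + 2) ≤ N ^ 2 := by nlinarith
    linarith
  have hN0 : (0 : ℝ) < N := by linarith
  have h7 : Real.log p ≤ 4 * Real.log N := by
    have h8 : Real.log (√p) ≤ Real.log ((N : ℝ) ^ 2) := Real.log_le_log hs0 h6
    rw [Real.log_sqrt (by linarith), Real.log_pow] at h8
    push_cast at h8
    linarith
  have h9 : Real.log N ≤ Real.log (P N) := by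
    apply Real.log_le_log hN0
    have := lt_P N
    exact_mod_cast (by omega : N ≤ P N)
  have h10 := P_lower N
  calc p ≤ 20 * (k * N + 1 + 1) * Real.log p := h1
    _ ≤ 20 * (k * N + 1 + 1) * (4 * Real.log (P N)) := by
        apply mul_le_mul_of_nonneg_left _ hA.le
        linarith
    _ = 80 * (k * N + 2) * Real.log (P N) := by ring
    _ ≤ 80 * (2 * k * (N + 1)) * Real.log (P N) := by
        have hl : 0 ≤ Real.log (P N) := Real.log_natCast_nonneg _
        apply mul_le_mul_of_nonneg_right _ hl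
        nlinarith
    _ = 160 * k * ((N + 1) * Real.log (P N)) := by ring
    _ ≤ 160 * k * (5 * P N) := mul_le_mul_of_nonneg_left h10 (by positivity)
    _ = 800 * k * P N := by ring

/-- the logarithms of the primes -/
noncomputable def f (x : ℕ) : ℝ := Real.log (P x)

lemma f_mono : StrictMono f := fun a b hab => by
  apply Real.log_lt_log
  · exact_mod_cast (P_prime a).pos
  · exact_mod_cast P_mono hab

/-- the function whose maximum is taken -/
noncomputable def G (μ N : ℕ) (x : ℕ) : ℝ :=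
  f x + f (x + 1) - (x : ℝ) / N + (x : ℝ) ^ 2 / (4 * (μ : ℝ) ^ 2 * (N : ℝ) ^ 2)

/-- the maximum is taken at a point of the right size -/
lemma exists_max : ∃ μ M : ℕ, 1 ≤ μ ∧ 1 ≤ M ∧ ∃ N₀ : ℕ, ∀ N : ℕ, N₀ ≤ N → 1 ≤ N →
    ∃ m : ℕ, N < m * M ∧ m < μ * N ∧ ∀ x : ℕ, x ≤ 2 * μ * N → G μ N x ≤ G μ N m := by
  obtain ⟨M, hM1, N₁, hN₁⟩ := P_small (Real.exp 2) (Real.one_le_exp (by norm_num))
  obtain ⟨μ, hμ1, hμ⟩ : ∃ μ : ℕ, 1 ≤ μ ∧ 2 * Real.log (1600 * μ) + 2 < μ := by
    refine ⟨100, by norm_num, ?_⟩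
    have h1 : Real.log (1600 * ((100 : ℕ) : ℝ)) < 18 * Real.log 2 := by
      rw [← Real.log_rpow (by norm_num)]
      apply Real.log_lt_log (by norm_num)
      norm_num
    have := Real.log_two_lt_d9
    push_cast at h1 ⊢
    linarith
  obtain ⟨N₂, hN₂⟩ := P_big (2 * μ) (by omega)
  refine ⟨μ, M, hμ1, hM1, max N₁ N₂, fun N hN hN1 => ?_⟩
  have hN1r : (1 : ℝ) ≤ N := by exact_mod_cast hN1
  have hμr : (1 : ℝ) ≤ μ := by exact_mod_cast hμ1
  obtain ⟨m, hm, hmax⟩ := Finset.exists_max_image (Finset.range (2 * μ * N + 1)) (G μ N)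
    ⟨0, Finset.mem_range.2 (Nat.succ_pos _)⟩
  have hmax' : ∀ x : ℕ, x ≤ 2 * μ * N → G μ N x ≤ G μ N m := fun x hx =>
    hmax x (Finset.mem_range.2 (Nat.lt_succ_of_le hx))
  have hm' : m ≤ 2 * μ * N := Nat.lt_succ_iff.1 (Finset.mem_range.1 hm)
  have hD : (0 : ℝ) < 4 * (μ : ℝ) ^ 2 * (N : ℝ) ^ 2 := by positivity
  have hquad : ∀ x : ℕ, x ≤ 2 * μ * N → (x : ℝ) ^ 2 / (4 * (μ : ℝ) ^ 2 * (N : ℝ) ^ 2) ≤ 1 := by
    intro x hx
    rw [div_le_one hD]
    have : (x : ℝ) ≤ 2 * μ * N := by exact_mod_cast hx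
    have h0 : (0 : ℝ) ≤ x := by positivity
    nlinarith
  have hGN : 2 * f N - 1 ≤ G μ N N := by
    unfold G
    have h1 : f N ≤ f (N + 1) := (f_mono (Nat.lt_succ_self N)).le
    have h2 : (N : ℝ) / N = 1 := div_self (by linarith)
    have h3 : 0 ≤ (N : ℝ) ^ 2 / (4 * (μ : ℝ) ^ 2 * (N : ℝ) ^ 2) := by positivity
    rw [h2]
    linarith
  have hNle : N ≤ 2 * μ * N := by nlinarith
  have hGm : 2 * f N - 1 ≤ G μ N m := hGN.trans (hmax' N hNle)
  have hup : G μ N m ≤ 2 * f (m + 1) - (m : ℝ) / N + 1 := by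
    unfold G
    have h1 : f m ≤ f (m + 1) := (f_mono (Nat.lt_succ_self m)).le
    have := hquad m hm'
    linarith
  refine ⟨m, ?_, ?_, hmax'⟩
  · by_contra hcon
    push Not at hcon
    have h1 := hN₁ N ((le_max_left _ _).trans hN) m hcon
    have h2 : f (m + 1) + 2 ≤ f N := by
      have h3 : Real.log (Real.exp 2 * (P (m + 1) : ℝ)) ≤ Real.log (P N) := by
        apply Real.log_le_log _ h1
        have : (0 : ℝ) < P (m + 1) := by exact_mod_cast (P_prime (m + 1)).pos
        positivity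
      rw [Real.log_mul (Real.exp_pos 2).ne' (by exact_mod_cast (P_prime (m + 1)).ne_zero),
        Real.log_exp] at h3
      unfold f
      linarith
    have h4 : 0 ≤ (m : ℝ) / N := by positivity
    linarith
  · by_contra hcon
    push Not at hcon
    have h1 := hN₂ N ((le_max_right _ _).trans hN)
    have h2 : f (m + 1) ≤ f (2 * μ * N + 1) := f_mono.monotone (by omega)
    have h3 : f (2 * μ * N + 1) ≤ Real.log (1600 * μ) + f N := by
      unfold f
      rw [← Real.log_mul (by positivity) (by exact_mod_cast (P_prime N).ne_zero)]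
      apply Real.log_le_log
      · exact_mod_cast (P_prime (2 * μ * N + 1)).pos
      · refine h1.trans (le_of_eq ?_)
        push_cast
        ring
    have h4 : (μ : ℝ) ≤ (m : ℝ) / N := by
      rw [le_div_iff₀ (by linarith)]
      exact_mod_cast hcon
    linarith

/-- there are infinitely many `n` such that the product inequality holds for two consecutive
values of `i` together, and for every `i ≥ C √n` alone -/
theorem result : ∃ C : ℝ, 0 < C ∧ Set.Infinite {n : ℕ | 1 ≤ n ∧ ∀ i : ℕ, 1 ≤ i → i ≤ n - 1 →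
    (Nat.nth Nat.Prime (n - i - 1) * Nat.nth Nat.Prime (n + i)) *
        (Nat.nth Nat.Prime (n - i) * Nat.nth Nat.Prime (n + i - 1)) <
      (Nat.nth Nat.Prime (n - 1) * Nat.nth Nat.Prime n) ^ 2 ∧
    (C * √(n : ℝ) ≤ i → Nat.nth Nat.Prime (n - i - 1) * Nat.nth Nat.Prime (n + i) <
      Nat.nth Nat.Prime (n - 1) * Nat.nth Nat.Prime n)} := by
  obtain ⟨μ, M, hμ, hM, N₀, hN₀⟩ := exists_max
  have hμr : (1 : ℝ) ≤ μ := by exact_mod_cast hμ
  have hMr : (1 : ℝ) ≤ M := by exact_mod_cast hM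
  refine ⟨2 * μ * M, by positivity, Set.infinite_of_forall_exists_gt fun B => ?_⟩
  set N := N₀ + 1 + B * M with hN
  obtain ⟨m, hm1, hm2, hmax⟩ := hN₀ N (by omega) (by omega)
  have hNr : (0 : ℝ) < N := by
    have : 0 < N := by omega
    exact_mod_cast this
  have hBm : B < m := by
    have h1 : B * M < m * M := by omega
    exact Nat.lt_of_mul_lt_mul_right h1
  have hmN : 2 * m + 1 ≤ 2 * μ * N := by
    have : 2 * μ * N = 2 * (μ * N) := by ring
    omega
  -- the two inequalities for logarithms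
  set s : ℝ := 1 / N with hs
  set t : ℝ := 1 / (4 * (μ : ℝ) ^ 2 * (N : ℝ) ^ 2) with ht
  have ht0 : 0 < t := by rw [ht]; positivity
  have hG : ∀ x : ℕ, G μ N x = f x + f (x + 1) - s * x + t * (x : ℝ) ^ 2 := by
    intro x
    unfold G
    rw [hs, ht]
    ring
  have hlogs : ∀ i : ℕ, 1 ≤ i → i ≤ m →
      f (m - i) + f (m - i + 1) + f (m + i) + f (m + i + 1) < 2 * (f m + f (m + 1)) := by
    intro i hi him
    have h1 := hmax (m - i) (by omega)
    have h2 := hmax (m + i) (by omega)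
    rw [hG, hG] at h1 h2
    push_cast [Nat.cast_sub him] at h1 h2
    have hi' : (0 : ℝ) < i := by exact_mod_cast hi
    nlinarith [mul_pos ht0 (mul_pos hi' hi')]
  have hlogs2 : ∀ i : ℕ, 1 ≤ i → i ≤ m → 2 * μ * M * √((m + 1 : ℕ) : ℝ) ≤ i →
      f (m - i) + f (m + 1 + i) < f m + f (m + 1) := by
    intro i hi him hC
    have h1 := hmax (m - i) (by omega)
    have h2 := hmax (m + 1 + i) (by omega)
    rw [hG, hG] at h1 h2
    push_cast [Nat.cast_sub him] at h1 h2
    have h3 : f (m - i) ≤ f (m - i + 1) := (f_mono (Nat.lt_succ_self _)).le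
    have h4 : f (m + 1 + i) ≤ f (m + 1 + i + 1) := (f_mono (Nat.lt_succ_self _)).le
    have hi' : (0 : ℝ) < i := by exact_mod_cast hi
    have hm0 : (0 : ℝ) ≤ m := by positivity
    have h5 : s ≤ 2 * (t * (i : ℝ) ^ 2) := by
      have h6 : (2 * μ * M * √((m + 1 : ℕ) : ℝ)) ^ 2 ≤ (i : ℝ) ^ 2 :=
        pow_le_pow_left₀ (by positivity) hC 2
      rw [mul_pow, Real.sq_sqrt (by positivity)] at h6
      have h7 : (N : ℝ) ≤ m * M := by exact_mod_cast hm1.le
      have h8 : 2 * (μ : ℝ) ^ 2 * N ≤ (i : ℝ) ^ 2 := by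
        push_cast at h6
        have h9 : 2 * (μ : ℝ) ^ 2 * N ≤ 2 * (μ : ℝ) ^ 2 * (m * M) :=
          mul_le_mul_of_nonneg_left h7 (by positivity)
        have h10 : 2 * (μ : ℝ) ^ 2 * (m * M) ≤ (2 * μ * M) ^ 2 * (m + 1) := by
          have h11 : (m : ℝ) * M ≤ (m + 1) * M ^ 2 := by nlinarith
          have h12 : (0 : ℝ) ≤ (μ : ℝ) ^ 2 := by positivity
          nlinarith [mul_le_mul_of_nonneg_left h11 h12, mul_nonneg h12 (mul_nonneg hm0 (by linarith : (0 : ℝ) ≤ M))]
        linarith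
      have h13 : s = t * (4 * (μ : ℝ) ^ 2 * N) := by
        rw [hs, ht]
        field_simp
      rw [h13]
      nlinarith [mul_le_mul_of_nonneg_left h8 ht0.le]
    nlinarith [mul_pos ht0 hi', mul_nonneg ht0.le hm0]
  refine ⟨m + 1, ⟨by omega, fun i hi him => ?_⟩, by omega⟩
  have him' : i ≤ m := by omega
  have e1 : m + 1 - i - 1 = m - i := by omega
  have e2 : m + 1 - i = m - i + 1 := by omega
  have e3 : m + 1 + i - 1 = m + i := by omega
  have e4 : m + 1 - 1 = m := by omega
  rw [e1, e3, e4, e2]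
  have hpos : ∀ x : ℕ, (0 : ℝ) < P x := fun x => by exact_mod_cast (P_prime x).pos
  have hne : ∀ x : ℕ, (P x : ℝ) ≠ 0 := fun x => (hpos x).ne'
  constructor
  · have h1 := hlogs i hi him'
    have h2 : Real.log (((P (m - i) : ℝ) * P (m + 1 + i)) * (P (m - i + 1) * P (m + i))) <
        Real.log (((P m : ℝ) * P (m + 1)) ^ 2) := by
      rw [Real.log_pow, Real.log_mul (mul_ne_zero (hne _) (hne _)) (mul_ne_zero (hne _) (hne _)),
        Real.log_mul (hne _) (hne _), Real.log_mul (hne _) (hne _), Real.log_mul (hne _) (hne _)]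
      unfold f at h1
      rw [show m + 1 + i = m + i + 1 by omega]
      push_cast
      linarith
    have h3 := (Real.log_lt_log_iff (mul_pos (mul_pos (hpos _) (hpos _)) (mul_pos (hpos _) (hpos _)))
      (pow_pos (mul_pos (hpos _) (hpos _)) 2)).1 h2
    exact_mod_cast h3
  · intro hC
    have h1 := hlogs2 i hi him' hC
    have h2 : Real.log ((P (m - i) : ℝ) * P (m + 1 + i)) < Real.log ((P m : ℝ) * P (m + 1)) := by
      rw [Real.log_mul (hne _) (hne _), Real.log_mul (hne _) (hne _)]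
      exact h1
    have h3 := (Real.log_lt_log_iff (mul_pos (hpos _) (hpos _)) (mul_pos (hpos _) (hpos _))).1 h2
    exact_mod_cast h3

end Pool.Agent.Results.MP_3ef57e_nt.SqrtRange
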